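import Mathlib
import Pool.Agent.H8.Dens

namespace Pool.Agent.Results.MP_5d23e6_lc.Eq

open Set Filter Pool.Agent.H8.Dens
open scoped Cardinal

/-- the `X`-reaping number, for a set `X` of real densities -/
noncomputable def rX (X : Set ℝ) : Cardinal :=
  sInf {c | ∃ 𝓡 : Set (Set ℕ), (∀ R ∈ 𝓡, R.Infinite) ∧
    (∀ S : Set ℕ, S.Infinite → Sᶜ.Infinite → ∃ R ∈ 𝓡, ¬ ∃ ρ ∈ X, HasDens S R ρ) ∧ #𝓡 = c}

theorem ex (X : Set ℝ) (h : (1 : ℝ) ∉ X) : ∃ 𝓡 : Set (Set ℕ), (∀ R ∈ 𝓡, R.Infinite) ∧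
    (∀ S : Set ℕ, S.Infinite → Sᶜ.Infinite → ∃ R ∈ 𝓡, ¬ ∃ ρ ∈ X, HasDens S R ρ) ∧ #𝓡 = rX X := by
  refine csInf_mem (s := {c | ∃ 𝓡 : Set (Set ℕ), (∀ R ∈ 𝓡, R.Infinite) ∧
    (∀ S : Set ℕ, S.Infinite → Sᶜ.Infinite → ∃ R ∈ 𝓡, ¬ ∃ ρ ∈ X, HasDens S R ρ) ∧ #𝓡 = c})
    ⟨_, {R | R.Infinite}, fun _ h => h, fun S hS _ => ⟨S, hS, ?_⟩, rfl⟩
  rintro ⟨ρ, h1, h2⟩
  have h3 := d_univ hS
  unfold HasDens at h2 h3
  rw [inter_self] at h2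
  rw [univ_inter] at h3
  exact h (tendsto_nhds_unique h2 h3 ▸ h1)

theorem small {ι : Type} (h : #ι < rX (Ioo 0 1)) (R : ι → Set ℕ) (hR : ∀ i, (R i).Infinite) :
    ∃ S, ∀ i, ∃ ρ ∈ Ioo (0 : ℝ) 1, HasDens S (R i) ρ := by
  by_contra hn
  push Not at hn
  have : rX (Ioo 0 1) ≤ #(range R) := csInf_le' ⟨range R, by rintro _ ⟨i, rfl⟩; exact hR i,
    fun S _ _ => by
      obtain ⟨i, hi⟩ := hn S
      exact ⟨_, ⟨i, rfl⟩, fun ⟨ρ, h1, h2⟩ => hi ρ h1 h2⟩, rfl⟩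
  exact absurd (this.trans Cardinal.mk_range_le) (not_le.2 h)

theorem unif {ι : Type} [Infinite ι] (h : #ι < rX (Ioo 0 1)) (R : ι → Set ℕ)
    (hR : ∀ i, (R i).Infinite) : ∃ S, ∃ ρ ∈ Ioo (0 : ℝ) 1, ∀ i, HasDens S (R i) ρ := by
  have i0 : ι := Classical.arbitrary ι
  choose M hM1 hM2 using fun i => mix (hR i0) (hR i)
  obtain ⟨S, hS⟩ := small (ι := ι ⊕ ι) (by simpa using h) (Sum.elim R M)
    (by rintro (i | i); exacts [hR i, hM1 i])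
  obtain ⟨ρ, h1, h2⟩ := hS (Sum.inl i0)
  refine ⟨S, ρ, h1, fun i => ?_⟩
  obtain ⟨a, -, ha⟩ := hS (Sum.inl i)
  obtain ⟨c, -, hc⟩ := hS (Sum.inr i)
  rwa [hM2 i S _ _ _ h2 ha hc]

theorem half {ι : Type} (h : #ι < rX (Ioo 0 1)) (R : ι → Set ℕ) (hR : ∀ i, (R i).Infinite) :
    ∃ S, ∀ i, HasDens S (R i) (1 / 2) := by
  cases finite_or_infinite ι
  · exact fin_half R hR
  have : ∃ m : ℕ, ∀ R' : ι → Set ℕ, (∀ i, (R' i).Infinite) →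
      ∃ S, ∃ ρ ∈ Icc (1 / (m + 1 : ℝ)) (1 - 1 / (m + 1 : ℝ)), ∀ i, HasDens S (R' i) ρ := by
    by_contra hn
    push Not at hn
    choose Q hQ1 hQ2 using hn
    obtain ⟨S, ρ, h1, h2⟩ := unif (ι := ℕ × ι) (by simpa using h) (fun p => Q p.1 p.2)
      fun p => hQ1 _ _
    obtain ⟨m, hm⟩ := exists_nat_one_div_lt (lt_min h1.1 (sub_pos.2 h1.2))
    rw [lt_min_iff] at hm
    obtain ⟨i, hi⟩ := hQ2 m S ρ ⟨hm.1.le, by linarith [hm.2]⟩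
    exact hi (h2 (m, i))
  obtain ⟨m, hm⟩ := this
  exact greedy R hR (by positivity) hm

theorem result : rX {1 / 2} = rX (Ioo 0 1) := by
  refine le_antisymm ?_ (not_lt.1 fun h => ?_)
  · obtain ⟨𝓡, h1, h2, h3⟩ := ex (Ioo 0 1) (by simp)
    refine csInf_le' ⟨𝓡, h1, fun S a b => ?_, h3⟩
    obtain ⟨R, hR, h⟩ := h2 S a b
    exact ⟨R, hR, fun ⟨ρ, c, d⟩ => h ⟨ρ, by rw [c]; norm_num, d⟩⟩
  · obtain ⟨𝓡, h1, h2, h3⟩ := ex {1 / 2} (by norm_num)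
    obtain ⟨R0, hR0, -⟩ := h2 {n | Even n} (infinite_of_forall_exists_gt fun n =>
      ⟨2 * n + 2, by simp [parity_simps], by omega⟩) (infinite_of_forall_exists_gt fun n =>
      ⟨2 * n + 1, by simp [parity_simps], by omega⟩)
    obtain ⟨S, hS⟩ := half (ι := 𝓡) (h3 ▸ h) Subtype.val fun R => h1 _ R.2
    have a := hS ⟨R0, hR0⟩
    have b := d_sub (d_univ (h1 _ hR0)) (B := S) (by rwa [univ_inter])
    obtain ⟨R, hR, hn⟩ := h2 S ((inf_of (h1 _ hR0) a (by norm_num)).mono inter_subset_left)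
      ((inf_of (h1 _ hR0) b (by norm_num)).mono fun x hx => hx.1.2)
    exact hn ⟨_, rfl, hS ⟨R, hR⟩⟩

end Pool.Agent.Results.MP_5d23e6_lc.Eq
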